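import Pool.Agent.H403Z.MC.Ex

/-!
Q2: the Hausdorff dimension of the limiting chaos measure.  For `0 < γ < √2` it equals
`1 - γ²/4` almost surely (the Gaussian value) exactly when `E |ξ|² log⁺ |ξ| < ∞`; otherwise the
limit is the zero measure.  So the answer to Q2 is negative for general variance one laws and
positive under the logarithmic moment condition, which is sharp.
-/

open MeasureTheory ProbabilityTheory Filter Topology
open scoped ENNReal
open Pool.Agent.H403Z.MC Pool.Agent.Results.MP_ab74d4_pr.ChaosConvergence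

namespace Pool.Agent.Results.MP_ab74d4_pr.ADimDichotomy

universe u

theorem result (γ : ℝ) (hγ0 : 0 < γ) (hγ : γ ^ 2 < 2) :
    (∀ (Ω : Type u) (_ : MeasurableSpace Ω) (P : Measure Ω) (_ : IsProbabilityMeasure P)
      (ξ : ℕ → Ω → ℂ), IsCoeff P ξ →
      (∃ μlim : Ω → FiniteMeasure S1, IsChaosLimit P ξ γ μlim) ∧
      (∀ μlim : Ω → FiniteMeasure S1, IsChaosLimit P ξ γ μlim →
        (Integrable (fun ω => ‖ξ 0 ω‖ ^ 2 * Real.posLog ‖ξ 0 ω‖) P →
          ∀ᵐ ω ∂P, measDim (μlim ω : Measure S1) = ENNReal.ofReal (1 - γ ^ 2 / 4)) ∧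
        (¬ Integrable (fun ω => ‖ξ 0 ω‖ ^ 2 * Real.posLog ‖ξ 0 ω‖) P →
          ∀ᵐ ω ∂P, (μlim ω : Measure S1) = 0 ∧ measDim (μlim ω : Measure S1) = 0)) ∧
      (P.map (ξ 0) = (gaussianReal 0 1).map (fun x : ℝ => (x : ℂ)) →
        Integrable (fun ω => ‖ξ 0 ω‖ ^ 2 * Real.posLog ‖ξ 0 ω‖) P)) ∧
    ∃ (Ω : Type) (_ : MeasurableSpace Ω) (P : Measure Ω) (_ : IsProbabilityMeasure P)
      (X : ℕ → Ω → ℝ), IsCoeff P (fun k ω => (X k ω : ℂ)) ∧
      ¬ Integrable (fun ω => ‖(X 0 ω : ℂ)‖ ^ 2 * Real.posLog ‖(X 0 ω : ℂ)‖) P := by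
  refine ⟨fun Ω _ P _ ξ H => ⟨H.exists_limit γ, fun μlim hl => ⟨fun hi => H.dim_eq hγ hl hi,
    fun hi => ?_⟩, fun h => gauss_integrable (H.meas 0) h⟩, exists_example⟩
  filter_upwards [H.limit_zero hγ0.ne' hl hi] with ω hω
  exact ⟨hω, by rw [hω]; exact measDim_zero⟩

end Pool.Agent.Results.MP_ab74d4_pr.ADimDichotomy
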